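import Mathlib

namespace Pool.Agent.H.MP_44283b_co

open Finset

def LB {V : Type} (G : SimpleGraph V) : Prop :=
  ∀ v, ∃ c : V → Fin 2, ∀ a b, G.Adj v a → G.Adj v b → G.Adj a b → c a ≠ c b

theorem lb_iff {V : Type} (G : SimpleGraph V) :
    (∀ v : V, (G.induce (G.neighborSet v)).Colorable 2) ↔ LB G := by
  classical
  refine forall_congr' (fun v => ⟨?_, ?_⟩)
  · rintro ⟨c⟩
    refine ⟨fun a => if h : G.Adj v a then c ⟨a, h⟩ else 0, fun a b ha hb hab => ?_⟩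
    simp only [ha, hb, dif_pos]
    exact c.valid (show (G.induce (G.neighborSet v)).Adj ⟨a, ha⟩ ⟨b, hb⟩ from hab)
  · rintro ⟨c, hc⟩
    exact ⟨SimpleGraph.Coloring.mk (fun a => c a.1) (fun {a b} h => hc a.1 b.1 a.2 b.2 h)⟩

theorem LB.comap {V W : Type} {G : SimpleGraph W} (h : LB G) (f : V → W) : LB (G.comap f) := by
  intro v
  obtain ⟨c, hc⟩ := h (f v)
  exact ⟨fun a => c (f a), fun a b ha hb hab => hc _ _ ha hb hab⟩

open Classical in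
theorem reduce {V : Type} [Fintype V] [Nonempty V] (G0 : SimpleGraph V) (h0 : LB G0) (c : ℝ)
    (ω : V → ℝ) (hω : ∀ v, 0 < ω v)
    (hd : ∀ v, c * (∑ u, ω u) < ∑ u ∈ univ.filter (G0.Adj v), ω u)
    {N : ℕ} (e : Fin N → V)
    (he : ∀ G : SimpleGraph V, G0 ≤ G → LB G → ∀ i j,
      G.neighborSet (e i) = G.neighborSet (e j) → i = j) :
    ∃ (W : Type) (_ : Fintype W) (H : SimpleGraph W), LB H ∧
      (∀ H' : SimpleGraph W, H ≤ H' → LB H' → H' = H) ∧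
      (∀ u v : W, H.neighborSet u = H.neighborSet v → u = v) ∧
      (∃ ω : W → ℝ, (∀ v, 0 < ω v) ∧
        ∀ v, c * (∑ u, ω u) < ∑ u ∈ univ.filter (H.Adj v), ω u) ∧ N ≤ Fintype.card W := by
  obtain ⟨G, ⟨hG0, hG⟩, hmax⟩ := Set.Finite.exists_maximal
    (Set.toFinite {G : SimpleGraph V | G0 ≤ G ∧ LB G}) ⟨G0, le_rfl, h0⟩
  have : ∀ S : Set V, ∃ r : V, ∀ u, G.neighborSet u = S → G.neighborSet r = S := by
    intro S
    by_cases h : ∃ u, G.neighborSet u = S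
    · obtain ⟨u, hu⟩ := h
      exact ⟨u, fun _ _ => hu⟩
    · exact ⟨Classical.arbitrary V, fun u hu => absurd ⟨u, hu⟩ h⟩
  choose σ hσ using this
  have h1 : ∀ u, G.neighborSet (σ (G.neighborSet u)) = G.neighborSet u := fun u => hσ _ u rfl
  let W := {u : V // σ (G.neighborSet u) = u}
  let ρ : V → W := fun u => ⟨σ (G.neighborSet u), by rw [h1]⟩
  have hρ : ∀ r : W, ρ r.1 = r := fun r => Subtype.ext r.2
  have h2 : ∀ u w, G.Adj (ρ u).1 w ↔ G.Adj u w := fun u w => by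
    rw [← SimpleGraph.mem_neighborSet, ← SimpleGraph.mem_neighborSet, ← h1 u]
  have h3 : ∀ u w, G.Adj (ρ u).1 (ρ w).1 ↔ G.Adj u w := fun u w => by
    rw [h2, G.adj_comm, h2, G.adj_comm]
  refine ⟨W, inferInstance, G.comap Subtype.val, hG.comap _, ?_, ?_,
    ⟨fun r => ∑ u ∈ univ.filter (fun u => ρ u = r), ω u, ?_, ?_⟩, ?_⟩
  · intro H' hH' hl
    have a1 : G ≤ H'.comap ρ := fun u w h => hH' ((h3 u w).2 h)
    have a2 := hmax ⟨hG0.trans a1, hl.comap ρ⟩ a1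
    refine le_antisymm (fun (r s : W) h => a2 (show H'.Adj (ρ r.1) (ρ s.1) by rwa [hρ, hρ])) hH'
  · intro r s h
    have : G.neighborSet r.1 = G.neighborSet s.1 := by
      ext w
      have := Set.ext_iff.1 h (ρ w)
      simp only [SimpleGraph.mem_neighborSet, SimpleGraph.comap_adj] at this ⊢
      rw [G.adj_comm, ← h2, G.adj_comm, this, G.adj_comm, h2, G.adj_comm]
    exact Subtype.ext (by rw [← r.2, ← s.2, this])
  · intro r
    exact sum_pos (fun u _ => hω u) ⟨r.1, mem_filter.2 ⟨mem_univ _, hρ r⟩⟩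
  · intro r
    rw [sum_fiberwise]
    refine lt_of_lt_of_le (hd r.1) ?_
    rw [sum_fiberwise_eq_sum_filter]
    refine sum_le_sum_of_subset_of_nonneg (fun u hu => ?_) (fun u _ _ => (hω u).le)
    refine mem_filter.2 ⟨mem_univ _, mem_filter.2 ⟨mem_univ _, ?_⟩⟩
    show G.Adj r.1 (ρ u).1
    rw [G.adj_comm, h2, G.adj_comm]
    exact hG0 (mem_filter.1 hu).2
  · have := Fintype.card_le_of_injective (fun i => ρ (e i)) (fun i j h => he G hG0 hG i j (by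
      rw [← h1 (e i), ← h1 (e j)]
      exact congrArg (fun r : W => G.neighborSet r.1) h))
    simpa using this

def kk : Fin 9 → Fin 9 → ℕ := ![![0, 1, 1, 0, 0, 1, 0, 0, 1], ![1, 0, 0, 0, 1, 1, 1, 1, 0], ![1, 0, 0, 1, 1, 1, 1, 0, 0], ![0, 0, 1, 0, 1, 1, 0, 0, 1], ![0, 1, 1, 1, 0, 0, 1, 0, 1], ![1, 1, 1, 1, 0, 0, 0, 1, 1], ![0, 1, 1, 0, 1, 0, 0, 2, 3], ![0, 1, 0, 0, 0, 1, 2, 0, 3], ![1, 0, 0, 1, 1, 1, 3, 3, 0]]

def col : Fin 9 → Fin 9 → Fin 2 := ![![0, 0, 0, 0, 0, 1, 0, 0, 0], ![0, 0, 0, 0, 0, 1, 1, 0, 0], ![0, 0, 0, 0, 1, 1, 0, 0, 0], ![0, 0, 0, 0, 1, 1, 0, 0, 0], ![0, 0, 0, 1, 0, 0, 1, 0, 0], ![0, 1, 1, 0, 0, 0, 0, 0, 1], ![0, 0, 0, 0, 1, 0, 0, 1, 0], ![0, 0, 0, 0, 0, 1, 1, 0, 0], ![0, 0, 0, 0, 1, 1, 0, 0, 0]]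

def wt : Fin 9 → ℕ := ![20, 60, 40, 20, 40, 60, 20, 1, 1]

theorem kk_symm : ∀ a b, kk a b = kk b a := by decide

theorem kk_self : ∀ a, kk a a = 0 := by decide

theorem kk_col : ∀ a b c, kk a b ≠ 0 → kk a c ≠ 0 → kk b c ≠ 0 → col a b ≠ col a c ∨
    (kk a b = 2 ∧ kk a c = 3 ∧ kk b c = 3) ∨ (kk a b = 3 ∧ kk a c = 2 ∧ kk b c = 3) ∨
    (kk a b = 3 ∧ kk a c = 3 ∧ kk b c = 2) := by decide

def G0 (N : ℕ) : SimpleGraph (Fin 9 × Fin N) where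
  Adj u w := kk u.1 w.1 = 1 ∨ (kk u.1 w.1 = 2 ∧ u.2 ≠ w.2) ∨ (kk u.1 w.1 = 3 ∧ u.2 = w.2)
  symm := ⟨fun u w h => by
    rw [kk_symm w.1]
    exact h.imp id (Or.imp (fun h => ⟨h.1, h.2.symm⟩) (fun h => ⟨h.1, h.2.symm⟩))⟩
  loopless := ⟨fun u h => by
    rw [kk_self] at h
    omega⟩

theorem G0_adj {N : ℕ} (u w : Fin 9 × Fin N) : (G0 N).Adj u w ↔
    kk u.1 w.1 = 1 ∨ (kk u.1 w.1 = 2 ∧ u.2 ≠ w.2) ∨ (kk u.1 w.1 = 3 ∧ u.2 = w.2) := Iff.rfl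

theorem G0_lb (N : ℕ) : LB (G0 N) := by
  intro v
  refine ⟨fun a => col v.1 a.1, fun a b h1 h2 h3 => ?_⟩
  rw [G0_adj] at h1 h2 h3
  rcases kk_col v.1 a.1 b.1 (by omega) (by omega) (by omega) with h | h | h | h
  · exact h
  all_goals
    exfalso
    simp only [h.1, h.2.1, h.2.2, ne_eq, Fin.ext_iff] at h1 h2 h3
    omega

theorem G0_sep {N : ℕ} (G : SimpleGraph (Fin 9 × Fin N)) (hG : G0 N ≤ G) (hl : LB G) (i j : Fin N)
    (h : G.neighborSet (7, i) = G.neighborSet (7, j)) : i = j := by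
  by_contra hij
  have a0 : G.Adj (7, i) (8, i) := hG (Or.inr (Or.inr ⟨rfl, rfl⟩))
  have a1 : G.Adj (7, j) (8, i) := by
    rw [← SimpleGraph.mem_neighborSet, ← h]; exact a0
  obtain ⟨c, hc⟩ := hl (8, i)
  have z6 : G.Adj (8, i) (6, i) := hG (Or.inr (Or.inr ⟨rfl, rfl⟩))
  have z4 : G.Adj (8, i) (4, i) := hG (Or.inl (rfl))
  have z3 : G.Adj (8, i) (3, i) := hG (Or.inl (rfl))
  have z5 : G.Adj (8, i) (5, i) := hG (Or.inl (rfl))
  have b1 := hc _ _ z6 z4 (hG (Or.inl (rfl)))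
  have b2 := hc _ _ z4 z3 (hG (Or.inl (rfl)))
  have b3 := hc _ _ z3 z5 (hG (Or.inl (rfl)))
  have b4 := hc _ _ z5 a1.symm (hG (Or.inl (rfl)))
  have b5 := hc _ _ z6 a1.symm (hG (Or.inr (Or.inl ⟨rfl, hij⟩)))
  omega

open Classical in
theorem G0_deg {N : ℕ} (hN : 4 ≤ N) (v : Fin 9 × Fin N) :
    (51 / 100 : ℝ) * (∑ u : Fin 9 × Fin N, (wt u.1 : ℝ)) <
      ∑ u ∈ univ.filter ((G0 N).Adj v), (wt u.1 : ℝ) := by
  have hN' : (4 : ℝ) ≤ N := by exact_mod_cast hN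
  have e1 : ∑ u : Fin 9 × Fin N, (wt u.1 : ℝ) = 262 * N := by
    rw [Fintype.sum_prod_type]
    simp [Fin.sum_univ_succ, wt]
    ring
  have e2 : ∀ b : Fin 9, (wt b : ℝ) * (if kk v.1 b = 1 then (N : ℝ) else
      if kk v.1 b = 2 then (N : ℝ) - 1 else 0) ≤
      ∑ j : Fin N, if (G0 N).Adj v (b, j) then (wt b : ℝ) else 0 := by
    intro b
    split_ifs with a1 a2
    · simp [G0_adj, a1, mul_comm]
    · have : ∀ j : Fin N, (G0 N).Adj v (b, j) ↔ j ≠ v.2 := fun j => by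
        simp [G0_adj, a2, eq_comm]
      simp only [this]
      rw [← sum_filter, sum_const, filter_ne', card_erase_of_mem (mem_univ _), card_univ,
        Fintype.card_fin, nsmul_eq_mul, Nat.cast_sub (by omega), mul_comm]
      simp
    · rw [mul_zero]
      exact sum_nonneg (fun j _ => by split_ifs <;> positivity)
  rw [e1, sum_filter, Fintype.sum_prod_type]
  refine lt_of_lt_of_le ?_ (sum_le_sum (fun b _ => e2 b))
  obtain ⟨a, i⟩ := v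
  fin_cases a <;> simp [Fin.sum_univ_succ, wt, kk] <;> linarith

end Pool.Agent.H.MP_44283b_co
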